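import Pool.Agent.W763.PB.Stm

/-! Project PB, part J4 (helper253): norm bounds for the new weight operator. -/

set_option autoImplicit false
set_option linter.unusedSectionVars false
open MeasureTheory Filter Topology
open scoped InnerProductSpace BoundedContinuousFunction

namespace Pool.Agent.W253.PB

open Pool.Agent.W763.PB

section
variable {b m : ℕ} [NeZero b] [NeZero m]
variable {H : Type} [NormedAddCommGroup H] [InnerProductSpace ℂ H] [CompleteSpace H]

theorem nsq (F : Sp b m H) : ‖F‖ ^ 2 = ∑ t : ZMod (b * m), ‖F t‖ ^ 2 :=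
  PiLp.norm_sq_eq_of_L2 (fun _ : ZMod (b * m) => H) F

theorem dgsq (f : ZMod (b * m) → ℝ) (F : Sp b m H) :
    ‖Dg b m f F‖ ^ 2 = ∑ t : ZMod (b * m), (f t) ^ 2 * ‖F t‖ ^ 2 := by
  rw [nsq]
  refine Finset.sum_congr rfl fun t _ => ?_
  rw [Dg_apply, norm_smul, mul_pow, Complex.norm_real, Real.norm_eq_abs, sq_abs]

end

theorem j4 : S_R2 → S_Z5 → S_J1 → S_J3 → S_J4 := by
  intro _ hZ5 hJ1 hJ3 k b m _ _ hk hb H _ _ _ U D hL
  obtain ⟨hz1, hz2, hz3, _⟩ := hZ5 k b m hk hb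
  obtain ⟨hj1, hj2, _, hj4, hj5⟩ := hJ1 k b m hk hb H U
  obtain ⟨h31, h32, _, _⟩ := hJ3 k b m hk hb H U D hL
  have hk0 : (0 : ℝ) ≤ k := by linarith
  have hsw : ∀ t : ZMod (b * m), (sw k b m t) ^ 2 = if t.val < 2 * m then 0 else ww k b m t := by
    intro t
    unfold sw
    split_ifs with h
    · simp
    · exact Real.sq_sqrt (le_trans zero_le_one (hz2 t).1)
  have hee : ∀ t : ZMod (b * m), (ee b m t) ^ 2 = if t.val < 2 * m then 1 else 0 := by
    intro t
    unfold ee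
    split_ifs with h <;> simp
  -- `k ee² + sw² = ww`
  have hid : ∀ F : Sp b m H, k * ‖Dg b m (ee b m) F‖ ^ 2 + ‖Dg b m (sw k b m) F‖ ^ 2 =
      ∑ t : ZMod (b * m), ww k b m t * ‖F t‖ ^ 2 := by
    intro F
    rw [dgsq, dgsq, Finset.mul_sum, ← Finset.sum_add_distrib]
    refine Finset.sum_congr rfl fun t _ => ?_
    rw [hsw, hee]
    split_ifs with h
    · have : ww k b m t = k := by unfold ww; rw [if_pos h]
      rw [this]; ring
    · ring
  have hge : ∀ F : Sp b m H, ‖F‖ ^ 2 ≤ ‖Dg b m (ee b m) F‖ ^ 2 + ‖Dg b m (sw k b m) F‖ ^ 2 := by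
    intro F
    rw [nsq, dgsq, dgsq, ← Finset.sum_add_distrib]
    refine Finset.sum_le_sum fun t _ => ?_
    rw [hsw, hee]
    split_ifs with h
    · linarith
    · nlinarith [(hz2 t).1, sq_nonneg ‖F t‖]
  have hlo : ∀ x, ‖x‖ ^ 2 ≤ ‖D x‖ ^ 2 := fun x => pow_le_pow_left₀ (norm_nonneg _) (hL.lo x) 2
  have hup : ∀ x, ‖D x‖ ^ 2 ≤ k * ‖x‖ ^ 2 := fun x => by
    have := pow_le_pow_left₀ (norm_nonneg _) (hL.up x) 2
    rwa [mul_pow, Real.sq_sqrt hk0] at this
  have hnn : ∀ F : Sp b m H, 0 ≤ ‖Dg b m (ee b m) F‖ ^ 2 -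
      ‖ContinuousLinearMap.adjoint (Jop k b m U) F‖ ^ 2 := by
    intro F
    rw [← h32 F]
    positivity
  have h3 : ∀ F, ‖Dop k b m U D F‖ ^ 2 ≤ ∑ t : ZMod (b * m), ww k b m t * ‖F t‖ ^ 2 := by
    intro F
    rw [h31 F, h32 F, ← hid F]
    have := hup (ContinuousLinearMap.adjoint (Jop k b m U) F)
    nlinarith
  have h4 : ∀ G, ContinuousLinearMap.adjoint (Jop k b m U) G = 0 →
      ‖Dop k b m U D G‖ ^ 2 = ∑ t : ZMod (b * m), ww k b m t * ‖G t‖ ^ 2 := by
    intro G hG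
    rw [h31 G, h32 G, ← hid G, hG]
    simp
  refine ⟨?_, ?_, h3, h4, ?_, ?_⟩
  · intro F
    refine le_of_sq_le_sq ?_ (norm_nonneg _)
    refine (hge F).trans ?_
    rw [h31 F, h32 F]
    have h1 := hlo (ContinuousLinearMap.adjoint (Jop k b m U) F)
    have h2 := hnn F
    nlinarith
  · intro F
    refine le_of_sq_le_sq ?_ (by positivity)
    rw [mul_pow, Real.sq_sqrt hk0]
    refine (h3 F).trans ?_
    rw [nsq, Finset.mul_sum]
    refine Finset.sum_le_sum fun t _ => ?_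
    exact mul_le_mul_of_nonneg_right (hz2 t).2 (sq_nonneg _)
  · intro F
    set A := ContinuousLinearMap.adjoint (Jop k b m U) F with hA
    have hG : ContinuousLinearMap.adjoint (Jop k b m U) (F - Jop k b m U A) = 0 := by
      rw [map_sub, hj2, ← hA, sub_self]
    rw [h31 (F - Jop k b m U A), h31 F, hG, map_sub, map_sub, hj4, hj5, ← hA]
    simp
    ring
  · intro n G hG
    refine (h3 _).trans ?_
    rw [h4 G hG, Finset.mul_sum]
    have hre : ∑ t : ZMod (b * m), kh k b m n * (ww k b m t * ‖G t‖ ^ 2) =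
        ∑ t : ZMod (b * m), kh k b m n * (ww k b m (t + n) * ‖G (t + n)‖ ^ 2) :=
      (Equiv.sum_comp (Equiv.addRight (n : ZMod (b * m)))
        (fun t => kh k b m n * (ww k b m t * ‖G t‖ ^ 2))).symm
    rw [hre]
    refine Finset.sum_le_sum fun t _ => ?_
    rw [Ush_pow_apply, ← mul_assoc]
    exact mul_le_mul_of_nonneg_right (hz1 n t) (sq_nonneg _)

end Pool.Agent.W253.PB
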